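import Pool.Agent.W455.EM.Stm

/-! Project EM: S_RED, reduction to two point laws. -/

set_option autoImplicit false

namespace Pool.Agent.W612.EM.RED

open Finset Pool.Agent.W455.EM

theorem BW_eq {j : ℕ} (q : Fin j → ℝ) (A : Finset (Fin j)) :
    BW q A = ∏ i, if i ∈ A then q i else 1 - q i := by
  rw [BW, Finset.prod_ite]
  congr 1
  · refine Finset.prod_congr ?_ fun _ _ => rfl
    ext i
    simp
  · refine Finset.prod_congr ?_ fun _ _ => rfl
    ext i
    simp

theorem sum_split {j : ℕ} (g : Finset (Fin (j + 1)) → ℝ) :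
    ∑ A, g A = ∑ A : Finset (Fin j), (g (A.map (Fin.succEmb j)) +
      g (insert 0 (A.map (Fin.succEmb j)))) := by
  rw [← Finset.sum_filter_add_sum_filter_not univ (fun A : Finset (Fin (j + 1)) => 0 ∉ A),
    Finset.sum_add_distrib]
  congr 1
  · symm
    refine Finset.sum_nbij' (fun A => A.map (Fin.succEmb j))
      (fun A => univ.filter (fun i : Fin j => i.succ ∈ A)) ?_ ?_ ?_ ?_ ?_
    · intro A _
      simp [Fin.succ_ne_zero]
    · intro A _
      simp
    · intro A _
      ext i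
      simp
    · intro A hA
      rw [Finset.mem_filter] at hA
      ext i
      refine Fin.cases ?_ (fun i => ?_) i
      · simp [hA.2, Fin.succ_ne_zero]
      · simp
    · intro A _
      rfl
  · symm
    refine Finset.sum_nbij' (fun A => insert 0 (A.map (Fin.succEmb j)))
      (fun A => univ.filter (fun i : Fin j => i.succ ∈ A)) ?_ ?_ ?_ ?_ ?_
    · intro A _
      simp
    · intro A _
      simp
    · intro A _
      ext i
      simp [Fin.succ_ne_zero]
    · intro A hA
      rw [Finset.mem_filter, not_not] at hA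
      ext i
      refine Fin.cases ?_ (fun i => ?_) i
      · simp [hA.2]
      · simp [Fin.succ_ne_zero]
    · intro A _
      rfl

theorem BW_map {j : ℕ} (q0 : ℝ) (q : Fin j → ℝ) (A : Finset (Fin j)) :
    BW (Fin.cons q0 q : Fin (j + 1) → ℝ) (A.map (Fin.succEmb j)) = (1 - q0) * BW q A := by
  rw [BW_eq, BW_eq, Fin.prod_univ_succ]
  congr 1
  · simp [Fin.succ_ne_zero]
  · refine Finset.prod_congr rfl fun i _ => ?_
    simp

theorem BW_ins {j : ℕ} (q0 : ℝ) (q : Fin j → ℝ) (A : Finset (Fin j)) :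
    BW (Fin.cons q0 q : Fin (j + 1) → ℝ) (insert 0 (A.map (Fin.succEmb j))) = q0 * BW q A := by
  rw [BW_eq, BW_eq, Fin.prod_univ_succ]
  congr 1
  · simp
  · refine Finset.prod_congr rfl fun i _ => ?_
    simp [Fin.succ_ne_zero]

theorem sel_map {V : Type} {j : ℕ} (x0 y0 : V) (x y : Fin j → V) (A : Finset (Fin j)) :
    (fun i => if i ∈ A.map (Fin.succEmb j) then (Fin.cons y0 y : Fin (j + 1) → V) i
      else (Fin.cons x0 x : Fin (j + 1) → V) i) =
    Fin.cons x0 (fun i => if i ∈ A then y i else x i) := by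
  funext i
  refine Fin.cases ?_ (fun i => ?_) i
  · simp [Fin.succ_ne_zero]
  · simp

theorem sel_ins {V : Type} {j : ℕ} (x0 y0 : V) (x y : Fin j → V) (A : Finset (Fin j)) :
    (fun i => if i ∈ insert 0 (A.map (Fin.succEmb j)) then (Fin.cons y0 y : Fin (j + 1) → V) i
      else (Fin.cons x0 x : Fin (j + 1) → V) i) =
    Fin.cons y0 (fun i => if i ∈ A then y i else x i) := by
  funext i
  refine Fin.cases ?_ (fun i => ?_) i
  · simp
  · simp [Fin.succ_ne_zero]

theorem sum_cons {V : Type} [Fintype V] {j : ℕ} (Φ : (Fin (j + 1) → V) → ℝ) :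
    ∑ t, Φ t = ∑ v, ∑ t : Fin j → V, Φ (Fin.cons v t) := by
  rw [← Fintype.sum_prod_type' (f := fun v (t : Fin j → V) => Φ (Fin.cons v t))]
  exact ((Fin.consEquiv (fun _ : Fin (j + 1) => V)).sum_comp Φ).symm

theorem one_step (h : S_TP) {V : Type} [Fintype V] [Nonempty V] (w F : V → ℝ) (μ : ℝ)
    (hw : ∑ v, w v = μ * (Fintype.card V : ℝ)) :
    ∃ (x y : V) (q : ℝ), ((q = 0 ∧ w x = μ) ∨
      (0 < q ∧ q < 1 ∧ w x < μ ∧ μ < w y ∧ (1 - q) * w x + q * w y = μ)) ∧
      ((1 - q) * F x + q * F y) * (Fintype.card V : ℝ) ≤ ∑ v, F v := by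
  rcases h V w F μ hw with ⟨x, hx, hF⟩ | ⟨x, y, hx, hy, hF⟩
  · exact ⟨x, x, 0, Or.inl ⟨rfl, hx⟩, by simpa using hF⟩
  · have hd : 0 < w y - w x := by linarith
    refine ⟨x, y, (μ - w x) / (w y - w x), Or.inr ⟨div_pos (by linarith) hd,
      (div_lt_one hd).mpr (by linarith), hx, hy, ?_⟩, ?_⟩
    · field_simp
      ring
    · have e : (1 - (μ - w x) / (w y - w x)) * F x + (μ - w x) / (w y - w x) * F y =
          ((w y - μ) * F x + (μ - w x) * F y) / (w y - w x) := by
        field_simp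
        ring
      rw [e]
      exact hF

theorem main (h : S_TP) : S_RED := by
  intro V _ _ w μ hw j
  induction j with
  | zero =>
    intro Φ
    refine ⟨Fin.elim0, Fin.elim0, Fin.elim0, fun i => i.elim0, ?_⟩
    rw [Fintype.sum_subsingleton _ (∅ : Finset (Fin 0)),
      Fintype.sum_subsingleton _ (Fin.elim0 : Fin 0 → V)]
    have e1 : BW (Fin.elim0 : Fin 0 → ℝ) ∅ = 1 := by
      rw [BW_eq]
      simp
    rw [e1, one_mul, pow_zero, mul_one]
    exact le_of_eq (congrArg Φ (Subsingleton.elim _ _))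
  | succ j ih =>
    intro Φ
    obtain ⟨x0, y0, q0, hlaw, hF⟩ := one_step h w (fun v => ∑ t : Fin j → V, Φ (Fin.cons v t))
      μ hw
    obtain ⟨x, y, q, hlaw', hF'⟩ := ih (fun t => (1 - q0) * Φ (Fin.cons x0 t) +
      q0 * Φ (Fin.cons y0 t))
    refine ⟨Fin.cons x0 x, Fin.cons y0 y, Fin.cons q0 q, ?_, ?_⟩
    · intro i
      refine Fin.cases ?_ (fun i => ?_) i
      · simpa using hlaw
      · simpa using hlaw' i
    · have e1 : ∑ A : Finset (Fin (j + 1)), BW (Fin.cons q0 q : Fin (j + 1) → ℝ) A *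
          Φ (fun i => if i ∈ A then (Fin.cons y0 y : Fin (j + 1) → V) i
            else (Fin.cons x0 x : Fin (j + 1) → V) i) =
          ∑ A : Finset (Fin j), BW q A * ((1 - q0) * Φ (Fin.cons x0 (fun i => if i ∈ A then y i
            else x i)) + q0 * Φ (Fin.cons y0 (fun i => if i ∈ A then y i else x i))) := by
        rw [sum_split]
        refine Finset.sum_congr rfl fun A _ => ?_
        rw [BW_map, BW_ins, sel_map, sel_ins]
        ring
      rw [e1, sum_cons, pow_succ, ← mul_assoc]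
      have hcard : (0 : ℝ) ≤ (Fintype.card V : ℝ) := Nat.cast_nonneg _
      refine (mul_le_mul_of_nonneg_right hF' hcard).trans ?_
      refine le_trans (le_of_eq ?_) hF
      congr 1
      rw [Finset.sum_add_distrib, ← Finset.mul_sum, ← Finset.mul_sum]

end Pool.Agent.W612.EM.RED
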